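import Pool.Agent.helper32.QS.Spec

/-!
# QS: module YA (Heisenberg pairs acting on a chief factor of exponent `ℓ`)
-/

set_option autoImplicit false

open scoped BigOperators commutatorElement

namespace QS

theorem YA_map {H : Type} [Group H] (A Y : Subgroup H) [A.Normal] [Y.Normal] (h : H) :
    (A.subgroupOf Y).map ((MulAut.conjNormal h : MulAut Y) : Y →* Y) = A.subgroupOf Y := by
  ext y
  rw [Subgroup.mem_map]
  constructor
  · rintro ⟨z, hz, rfl⟩
    rw [Subgroup.mem_subgroupOf] at hz ⊢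
    show ((MulAut.conjNormal h z : Y) : H) ∈ A
    rw [MulAut.conjNormal_apply]
    exact Subgroup.Normal.conj_mem inferInstance _ hz h
  · intro hy
    rw [Subgroup.mem_subgroupOf] at hy
    refine ⟨(MulAut.conjNormal h).symm y, ?_, ?_⟩
    · rw [Subgroup.mem_subgroupOf, MulAut.conjNormal_symm_apply]
      have := Subgroup.Normal.conj_mem (inferInstance : A.Normal) _ hy h⁻¹
      rwa [inv_inv] at this
    · show MulAut.conjNormal h ((MulAut.conjNormal h).symm y) = y
      exact MulEquiv.apply_symm_apply _ _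

/-- The action of `h` on `Y / A` by conjugation. -/
noncomputable def YA_act {H : Type} [Group H] (A Y : Subgroup H) [A.Normal] [Y.Normal] (h : H) :
    MulAut (Y ⧸ A.subgroupOf Y) :=
  QuotientGroup.congr (A.subgroupOf Y) (A.subgroupOf Y) (MulAut.conjNormal h) (YA_map A Y h)

theorem YA_act_mk {H : Type} [Group H] (A Y : Subgroup H) [A.Normal] [Y.Normal] (h : H) (y : Y) :
    YA_act A Y h (QuotientGroup.mk y) = QuotientGroup.mk (MulAut.conjNormal h y) := rfl

/-- The homomorphism from `H` to the automorphisms of `Y / A`. -/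
noncomputable def YA_hom {H : Type} [Group H] (A Y : Subgroup H) [A.Normal] [Y.Normal] :
    H →* MulAut (Y ⧸ A.subgroupOf Y) where
  toFun := YA_act A Y
  map_one' := by
    apply MulEquiv.ext
    intro q
    obtain ⟨y, rfl⟩ := QuotientGroup.mk_surjective q
    rw [YA_act_mk, map_one]
    rfl
  map_mul' := by
    intro a b
    apply MulEquiv.ext
    intro q
    obtain ⟨y, rfl⟩ := QuotientGroup.mk_surjective q
    rw [MulAut.mul_apply, YA_act_mk, YA_act_mk, YA_act_mk, map_mul]
    rfl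

theorem YA (hC6 : C6_stmt) : YA_stmt := by
  intro H _ _ p ℓ hp hl hne A Y hA hY hAY hcomm hexp x y hH hu
  obtain ⟨u, hu, hcu⟩ := hu
  let inst : CommGroup (Y ⧸ A.subgroupOf Y) :=
    { (inferInstance : Group (Y ⧸ A.subgroupOf Y)) with
      mul_comm := by
        intro a b
        obtain ⟨a, rfl⟩ := QuotientGroup.mk_surjective a
        obtain ⟨b, rfl⟩ := QuotientGroup.mk_surjective b
        rw [← QuotientGroup.mk_mul, ← QuotientGroup.mk_mul, QuotientGroup.eq,
          Subgroup.mem_subgroupOf]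
        have h1 := hcomm (b : H)⁻¹ (Y.inv_mem b.2) (a : H)⁻¹ (Y.inv_mem a.2)
        have h2 : (((a * b)⁻¹ * (b * a) : Y) : H) = ⁅(b : H)⁻¹, (a : H)⁻¹⁆ := by
          rw [commutatorElement_def]
          push_cast
          group
        rw [h2]
        exact h1 }
  have hP : IsPGroup ℓ (Y ⧸ A.subgroupOf Y) := by
    intro a
    obtain ⟨a, rfl⟩ := QuotientGroup.mk_surjective a
    refine ⟨1, ?_⟩
    rw [pow_one]
    have h1 : (QuotientGroup.mk (a ^ ℓ) : Y ⧸ A.subgroupOf Y) = 1 := by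
      rw [QuotientGroup.eq_one_iff, Subgroup.mem_subgroupOf]
      push_cast
      exact hexp a a.2
    exact h1
  obtain ⟨hx, hy, hxy, hcx, hcy⟩ := hH
  have hHeis : Heis p (YA_hom A Y x) (YA_hom A Y y) := by
    refine ⟨?_, ?_, ?_, ?_, ?_⟩
    · rw [← map_pow, hx, map_one]
    · rw [← map_pow, hy, map_one]
    · intro h1
      apply hcu
      have h2 : YA_hom A Y ⁅x, y⁆ = 1 := by
        rw [map_commutatorElement]
        exact h1
      have h3 : YA_act A Y ⁅x, y⁆ (QuotientGroup.mk (⟨u, hu⟩ : Y)) = QuotientGroup.mk (⟨u, hu⟩ : Y) := by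
        have h4 := congrArg (fun f : MulAut (Y ⧸ A.subgroupOf Y) =>
          f (QuotientGroup.mk (⟨u, hu⟩ : Y))) h2
        exact h4
      rw [YA_act_mk, eq_comm, QuotientGroup.eq, Subgroup.mem_subgroupOf] at h3
      have h5 : (((⟨u, hu⟩ : Y)⁻¹ * MulAut.conjNormal ⁅x, y⁆ (⟨u, hu⟩ : Y) : Y) : H)
          = u⁻¹ * (⁅x, y⁆ * u * ⁅x, y⁆⁻¹) := by
        push_cast
        rw [MulAut.conjNormal_apply]
      rw [h5] at h3
      have h6 := Subgroup.Normal.conj_mem hA _ h3 u
      have h7 : u * (u⁻¹ * (⁅x, y⁆ * u * ⁅x, y⁆⁻¹)) * u⁻¹ = ⁅⁅x, y⁆, u⁆ := by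
        rw [commutatorElement_def ⁅x, y⁆ u]
        group
      rwa [h7] at h6
    · rw [← map_commutatorElement, ← map_mul, hcx, map_mul]
    · rw [← map_commutatorElement, ← map_mul, hcy, map_mul]
  exact hC6 (Y ⧸ A.subgroupOf Y) p ℓ hp hl hne hP (YA_hom A Y x) (YA_hom A Y y) hHeis

end QS
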